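import Pool.Agent.H60MC.Self

/-!
# Independence of the Chow–Künneth filtration and self-correspondences

For each variety `X` and each pair `(i, l)` the following are equivalent:

1. `F^l CH^i(X)` is the same for all Chow–Künneth decompositions of `X`;
2. for all Chow–Künneth decompositions `π` and `π'` of `X`, all correspondences
   `γ ∈ CH^(dim X)(X × X)` map the group `F^l CH^i(X)` defined by `π` to the one defined by `π'`.

So the independence, which is the case `γ = Δ` of (2), implies the functoriality for all
correspondences of degree zero from `X` to itself. Nothing is assumed about `X × X`, and only the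
one group `F^l CH^i(X)` is used.
-/

open Pool.Agent.H914 Pool.Agent.R903 Pool.Agent.H60MC

universe u v w

namespace Pool.Agent.Results.MP_10f4af_ag.SelfCorrespondences

/-- **`F^l CH^i(X)` is independent of the Chow–Künneth decomposition of `X` if and only if all
correspondences of degree zero from `X` to `X` respect it, for all pairs of decompositions.** -/
theorem result {k : Type u} [Field k] {𝒱 : VarClass k} {C : ChowTheory.{u, v} 𝒱}
    (W : WeilTheory.{u, v, w} C) (X : 𝒱.Obj) (i l : ℕ) : W.Indep X i l ↔
    ∀ π π' : ℕ → C.CH (X.prod X), W.IsCK X π → W.IsCK X π' → ∀ γ ∈ C.gr (X.prod X) X.dim,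
      ∀ x ∈ C.ckFil π i l, C.act γ x ∈ C.ckFil π' i l :=
  indep_iff_respected i l

end Pool.Agent.Results.MP_10f4af_ag.SelfCorrespondences
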